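import Pool.Agent.Helper11.PK.Defs

/-! # Packet 6572: associativity of the convolution of Malcev-Neumann series (PHSB)

Port of `Helper70/PC/HSB.lean` to an arbitrary field. -/

namespace Pool.Agent.Helper31.PK

open Pool.Agent.Helper11.PK
open scoped Pointwise

universe u

/-- The statement HSA (proved here too, so that HSB needs no hypothesis). -/
theorem hsa_aux {G : Type u} [Group G] [LinearOrder G] [MulLeftStrictMono G]
    [MulRightStrictMono G] {s t : Set G} (hs : s.IsPWO) (ht : t.IsPWO) :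
    (s * t).IsPWO ∧ ∀ x : G, {a | a ∈ s ∧ a⁻¹ * x ∈ t}.Finite := by
  have : MulLeftMono G := mulLeftMono_of_mulLeftStrictMono G
  have : MulRightMono G := mulRightMono_of_mulRightStrictMono G
  constructor
  · have h := (hs.prod ht).image_of_monotone (f := fun p : G × G => p.1 * p.2)
      (fun p q h => mul_le_mul' h.1 h.2)
    have e : s * t = (fun p : G × G => p.1 * p.2) '' (s ×ˢ t) := Set.image_mul_prod.symm
    rw [e]
    exact h
  · intro x
    by_contra hinf
    have hinf' : {a | a ∈ s ∧ a⁻¹ * x ∈ t}.Infinite := hinf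
    let φ := hinf'.natEmbedding
    obtain ⟨g, hg⟩ := Set.isPWO_iff_exists_monotone_subseq.1 hs (fun n => (φ n : G))
      (fun n => (φ n).2.1)
    obtain ⟨m, n, hmn, hle⟩ := ht (fun n => ⟨(φ (g n) : G)⁻¹ * x, (φ (g n)).2.2⟩)
    have h1 : (φ (g m) : G) ≤ (φ (g n) : G) := hg hmn.le
    have h2 : (φ (g m) : G) ≠ (φ (g n) : G) := by
      intro h
      have h3 := φ.injective (Subtype.ext h)
      have h4 := g.injective h3
      omega
    have h3 : (φ (g m) : G) < (φ (g n) : G) := lt_of_le_of_ne h1 h2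
    have h4 : (φ (g m) : G)⁻¹ ≤ (φ (g n) : G)⁻¹ := le_of_mul_le_mul_right' hle
    have h5 : (φ (g n) : G) ≤ (φ (g m) : G) := inv_le_inv_iff.1 h4
    exact absurd h3 (not_lt.2 h5)

theorem phsb {k : Type} [Field k] {G : Type u} [Group G] [LinearOrder G] [MulLeftStrictMono G] [MulRightStrictMono G]
    {f g h : G → k} (hf : (Function.support f).IsPWO) (hg : (Function.support g).IsPWO)
    (hh : (Function.support h).IsPWO) : conv (conv f g) h = conv f (conv g h) := by
  funext x
  -- the finite set of pairs `(a, c)`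
  have hfin : (Function.support (fun p : G × G =>
      f p.2 * g (p.2⁻¹ * p.1) * h (p.1⁻¹ * x))).Finite := by
    have h1 := (hsa_aux (hsa_aux hf hg).1 hh).2 x
    have h2 : (⋃ c ∈ {c | c ∈ Function.support f * Function.support g ∧
        c⁻¹ * x ∈ Function.support h},
        (fun a => (c, a)) '' {a | a ∈ Function.support f ∧ a⁻¹ * c ∈ Function.support g}).Finite :=
      h1.biUnion (fun c _ => ((hsa_aux hf hg).2 c).image _)
    refine h2.subset ?_
    rintro ⟨c, a⟩ hp
    simp only [Function.mem_support, ne_eq, mul_eq_zero, not_or] at hp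
    obtain ⟨⟨ha, hb⟩, hc⟩ := hp
    simp only [Set.mem_iUnion, exists_prop]
    refine ⟨c, ⟨?_, hc⟩, ⟨a, ⟨ha, hb⟩, rfl⟩⟩
    exact Set.mem_mul.2 ⟨a, ha, a⁻¹ * c, hb, by group⟩
  have hfin' : (Function.support (fun p : G × G =>
      f p.1 * g (p.1⁻¹ * p.2) * h (p.2⁻¹ * x))).Finite := by
    have h3 := hfin.image Prod.swap
    refine h3.subset ?_
    rintro ⟨a, c⟩ hp
    exact ⟨(c, a), hp, rfl⟩
  have hL : conv (conv f g) h x = ∑ᶠ p : G × G, f p.2 * g (p.2⁻¹ * p.1) * h (p.1⁻¹ * x) := by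
    rw [finsum_curry _ hfin]
    unfold conv
    refine finsum_congr (fun c => ?_)
    rw [finsum_mul]
  have hR : conv f (conv g h) x = ∑ᶠ p : G × G, f p.1 * g (p.1⁻¹ * p.2) * h (p.2⁻¹ * x) := by
    rw [finsum_curry _ hfin']
    unfold conv
    refine finsum_congr (fun a => ?_)
    rw [mul_finsum]
    rw [← finsum_comp_equiv (Equiv.mulLeft a⁻¹)]
    refine finsum_congr (fun c => ?_)
    simp only [Equiv.coe_mulLeft]
    have e : (a⁻¹ * c)⁻¹ * (a⁻¹ * x) = c⁻¹ * x := by group
    rw [e, mul_assoc]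
  rw [hL, hR]
  exact finsum_comp_equiv (Equiv.prodComm G G)
    (f := fun p : G × G => f p.1 * g (p.1⁻¹ * p.2) * h (p.2⁻¹ * x))

end Pool.Agent.Helper31.PK
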